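import Pool.Agent.TH25.AD.A8
import Pool.Agent.W656.VB6

set_option autoImplicit false

noncomputable section

namespace Pool.Agent.Results.MP_95030e_al.AllOrNothing

/-- The kernel of right multiplication by the matrix `A` on `ℓ²(G)^m`. -/
def kernel {G : Type} [Group G] {m n : ℕ} (A : Matrix (Fin m) (Fin n) (G →₀ ℂ)) :
    Set (lp (fun _ : Fin m × G => ℂ) 2) :=
  {x | ∀ (j : Fin n) (g : G),
    ∑ i : Fin m, (A i j).sum (fun h c => x (i, g * h⁻¹) * c) = 0}

open Classical in
/-- The von Neumann dimension of this kernel: the sum over `i` of one minus the squared distance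
from the basis vector at `(i, 1)` to the kernel, that is, the trace of the projection onto the
kernel. -/
def kerDim {G : Type} [Group G] {m n : ℕ} (A : Matrix (Fin m) (Fin n) (G →₀ ℂ)) : ℝ :=
  ∑ i : Fin m, (1 - (Metric.infDist
    (lp.single 2 (i, (1 : G)) (1 : ℂ) : lp (fun _ : Fin m × G => ℂ) 2) (kernel A)) ^ 2)

/-- `G` is torsion-free. -/
def TorsionFree (G : Type) [Group G] : Prop := ∀ g : G, ∀ n : ℕ, 0 < n → g ^ n = 1 → g = 1

/-- `C` is a class of torsion-free groups which is closed under subgroups and isomorphisms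
(injective homomorphisms into a member), direct products of arbitrary families, semidirect products
with `ℤ`, and free products with free groups of finite rank. -/
structure ClosedClass (C : (G : Type) → [Group G] → Prop) : Prop where
  torsionFree : ∀ (G : Type) [Group G], C G → TorsionFree G
  subgroup : ∀ (G H : Type) [Group G] [Group H] (f : G →* H), Function.Injective f → C H → C G
  product : ∀ (I : Type) (G : I → Type) [∀ i, Group (G i)], (∀ i, C (G i)) → C (∀ i, G i)
  semidirect : ∀ (G : Type) [Group G] (s : MulAut G), C G →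
    C (G ⋊[zpowersHom (MulAut G) s] Multiplicative ℤ)
  freeProduct : ∀ (G : Type) [Group G] (m : ℕ), C G → C (Monoid.Coprod G (FreeGroup (Fin m)))

open Pool.Agent Pool.Agent.TH25.AD

theorem cls {C : (G : Type) → [Group G] → Prop} (h : ClosedClass C) : Cls C :=
  ⟨h.torsionFree, h.subgroup, h.product, h.semidirect, h.freeProduct⟩

theorem dvd_one_of_tf {G : Type} [Group G] (h : TorsionFree G) {d : ℕ} (hd : W656.VA.IsLcm G d) :
    d = 1 := by
  have h1 := hd.2.2 1 (fun K hK => (W656.VA.isLcm_one h).2.1 K hK)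
  exact Nat.dvd_one.1 h1

theorem tf_of_isLcm {G : Type} [Group G] (h : W656.VA.IsLcm G 1) : TorsionFree G := by
  intro g n hn hg
  have h1 : IsOfFinOrder g := isOfFinOrder_iff_pow_eq_one.2 ⟨n, hn, hg⟩
  have h2 : Finite (Subgroup.zpowers g) := (finite_zpowers.2 h1).to_subtype
  have h3 := h.2.1 (Subgroup.zpowers g) h2
  rw [Nat.card_zpowers, Nat.dvd_one, orderOf_eq_one_iff] at h3
  exact h3

/-- The torsion-free groups form such a class. -/
theorem closedClass_torsionFree : ClosedClass (fun (G : Type) [Group G] => TorsionFree G) := by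
  refine ⟨fun G _ h => h, ?_, ?_, ?_, ?_⟩
  · intro G H _ _ f hf hH g n hn hg
    apply hf
    rw [map_one]
    refine hH _ n hn ?_
    rw [← map_pow, hg, map_one]
  · intro I G _ h g n hn hg
    funext i
    exact h i _ n hn (congrFun hg i)
  · intro G _ s hG g n hn hg
    have h1 : g.right = 1 := by
      refine tf_int _ n hn ?_
      have := congrArg SemidirectProduct.rightHom hg
      rw [map_pow, map_one] at this
      exact this
    have h2 : g = SemidirectProduct.inl g.left := by
      apply SemidirectProduct.ext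
      · rfl
      · rw [h1]
        rfl
    rw [h2, ← map_pow] at hg
    have h3 : g.left ^ n = 1 := by
      apply SemidirectProduct.inl_injective (φ := zpowersHom (MulAut G) s)
      rw [hg, map_one]
    rw [h2, hG _ n hn h3, map_one]
  · intro G _ m hG
    show TorsionFree (Monoid.Coprod G (FreeGroup (Fin m)))
    exact tf_of_isLcm (W656.VA.IsLcm.coprod (G := G) (W656.VA.isLcm_one hG) m)

/-- If one value is not an integer, then all numbers are values with integer coefficients. -/
theorem all_values {C : (G : Type) → [Group G] → Prop} (hC : ClosedClass C)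
    (h : ¬ ∀ (G : Type) [Group G], C G → ∀ (m n : ℕ) (A : Matrix (Fin m) (Fin n) (G →₀ ℂ)),
      ∃ z : ℤ, kerDim A = z) (r : ℝ) (hr : 0 ≤ r) : VV C (⊥ : Subring ℂ) r := by
  obtain ⟨G, iG, hG, ρ, hρ, h0, h1⟩ : ∃ (G : Type) (_ : Group G), C G ∧
      ∃ ρ : ℝ, W656.VA.Val (⊥ : Subring ℂ) G ρ ∧ 0 < ρ ∧ ρ < 1 := by
    by_contra hno
    have key : ∀ (H : Type) [Group H], C H → ∀ d : ℕ, W656.VA.IsLcm H d → ∀ v : ℝ,
        W656.VA.Val (⊥ : Subring ℂ) H v → ∃ z : ℤ, (d : ℝ) * v = z := by
      intro H _ hH d hd v hv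
      by_contra hz
      obtain ⟨m', ρ, hρ, h0, h1⟩ := W656.VA.val_small hd hv hz
      have hd1 := dvd_one_of_tf (hC.torsionFree H hH) hd
      rw [hd1, Nat.cast_one, one_mul] at h1
      exact hno ⟨_, inferInstance, hC.freeProduct H m' hH, ρ, hρ, h0, h1⟩
    apply h
    intro G _ hG m n A
    obtain ⟨z, hz⟩ := W656.VA.base_change C (fun G H _ _ => (cls hC).prod G H)
      (fun G _ m hG => hC.freeProduct G m hG) ⊥ key ⊤ G hG 1
      (W656.VA.isLcm_one (hC.torsionFree G hG)) _
      (W656.VA.val_kerDim A (fun _ _ _ => Subring.mem_top _))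
    rw [Nat.cast_one, one_mul] at hz
    exact ⟨z, hz⟩
  have hconj : ∀ c ∈ (⊥ : Subring ℂ), (starRingEnd ℂ) c ∈ (⊥ : Subring ℂ) := by
    intro c hc
    obtain ⟨k, rfl⟩ := Subring.mem_bot.1 hc
    rw [map_intCast]
    exact Subring.mem_bot.2 ⟨k, rfl⟩
  exact VV.all (cls hC) hconj ⟨G, iG, hG, hρ⟩ h0 h1 r hr

theorem val_mono {R R' : Subring ℂ} (h : R ≤ R') {G : Type} [Group G] {v : ℝ}
    (hv : W656.VA.Val R G v) : W656.VA.Val R' G v := by
  obtain ⟨m, n, A, hA, hv⟩ := hv
  exact ⟨m, n, A, fun k i g => h (hA k i g), hv⟩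

/-- restriction to a finitely generated subgroup, inside the class -/
theorem fg_value {C : (G : Type) → [Group G] → Prop} (hC : ClosedClass C) {R : Subring ℂ}
    {H : Type} [Group H] (hH : C H) {w : ℝ} (hv : W656.VA.Val R H w) :
    ∃ (H0 : Type) (_ : Group H0), C H0 ∧ Group.FG H0 ∧ W656.VA.Val R H0 w := by
  obtain ⟨K, hK, hv⟩ := fg_val_sub hv
  exact ⟨K, inferInstance, hC.subgroup K H K.subtype K.subtype_injective hH, hK, hv⟩

/-- **All or nothing.** Let `C` be a class of torsion-free groups which is closed under subgroups,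
direct products, semidirect products with `ℤ` and free products with free groups of finite rank,
for example the class of all torsion-free groups, and let `R` be any subring of `ℂ`, for example
`ℤ` or `ℚ`. The following are equivalent.

1. The Atiyah conjecture over `ℂ` holds for all groups of `C`: all kernel dimensions are integers.
2. Some real number `r ≥ 0` is not the kernel dimension of any matrix over `R[G]`, for any finitely
   generated group `G` in `C`.
3. For every group `G` in `C`, some real number `r ≥ 0` is not the kernel dimension of any matrix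
   over `R[G]`.

So if the Atiyah conjecture fails for one torsion-free group, then every real number `r ≥ 0` is the
dimension of the kernel of a matrix over `ℤ[G]` for some finitely generated torsion-free group `G`,
and there is one torsion-free group for which every real number `r ≥ 0` occurs. -/
theorem result :
    ClosedClass (fun (G : Type) [Group G] => TorsionFree G) ∧
    ∀ C : (G : Type) → [Group G] → Prop, ClosedClass C → ∀ R : Subring ℂ, List.TFAE [
      ∀ (G : Type) [Group G], C G → ∀ (m n : ℕ) (A : Matrix (Fin m) (Fin n) (G →₀ ℂ)),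
        ∃ z : ℤ, kerDim A = z,
      ∃ r : ℝ, 0 ≤ r ∧ ∀ (G : Type) [Group G], C G → Group.FG G →
        ∀ (m n : ℕ) (A : Matrix (Fin m) (Fin n) (G →₀ ℂ)), (∀ i j g, A i j g ∈ R) → kerDim A ≠ r,
      ∀ (G : Type) [Group G], C G → ∃ r : ℝ, 0 ≤ r ∧
        ∀ (m n : ℕ) (A : Matrix (Fin m) (Fin n) (G →₀ ℂ)), (∀ i j g, A i j g ∈ R) →
          kerDim A ≠ r] := by
  refine ⟨closedClass_torsionFree, fun C hC R => ?_⟩
  have hhalf : ∀ z : ℤ, (z : ℝ) ≠ 1 / 2 := by
    intro z hz
    have h1 : (2 * z : ℝ) = 1 := by linarith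
    have h2 : 2 * z = 1 := by exact_mod_cast h1
    omega
  tfae_have 1 → 2 := by
    intro h
    refine ⟨1 / 2, by norm_num, ?_⟩
    intro G _ hG _ m n A _ hA
    obtain ⟨z, hz⟩ := h G hG m n A
    exact hhalf z (hz.symm.trans hA)
  tfae_have 1 → 3 := by
    intro h G _ hG
    refine ⟨1 / 2, by norm_num, ?_⟩
    intro m n A _ hA
    obtain ⟨z, hz⟩ := h G hG m n A
    exact hhalf z (hz.symm.trans hA)
  tfae_have 2 → 1 := by
    rintro ⟨r, hr, h⟩
    by_contra hno
    obtain ⟨H, _, hH, hv⟩ := all_values hC hno r hr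
    obtain ⟨H0, _, hH0, hfg, hv0⟩ := fg_value hC hH (val_mono bot_le hv)
    obtain ⟨m, n, A, hA, hAr⟩ := W656.VA.exists_kerDim hv0
    exact h H0 hH0 hfg m n A hA hAr
  tfae_have 3 → 1 := by
    intro h
    by_contra hno
    have h1 : ∀ r : {r : ℝ // 0 ≤ r}, ∃ (H : Type) (_ : Group H), C H ∧
        W656.VA.Val R H (r : ℝ) := by
      rintro ⟨r, hr⟩
      obtain ⟨H, _, hH, hv⟩ := all_values hC hno r hr
      exact ⟨H, inferInstance, hH, val_mono bot_le hv⟩
    choose H iH hH hv using h1
    obtain ⟨r, hr, h2⟩ := h (∀ r, H r) (hC.product _ H hH)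
    classical
    have h3 : W656.VA.Val R (∀ r, H r) r :=
      W656.VA.val_incl (MonoidHom.mulSingle H (⟨r, hr⟩ : {r : ℝ // 0 ≤ r})) (by
        intro a b hab
        have := congrFun hab ⟨r, hr⟩
        simpa using this) (hv ⟨r, hr⟩)
    obtain ⟨m, n, A, hA, hAr⟩ := W656.VA.exists_kerDim h3
    exact h2 m n A hA hAr
  tfae_finish

end Pool.Agent.Results.MP_95030e_al.AllOrNothing
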