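import Pool.Agent.TH57.Thr.Ati3

set_option autoImplicit false

/-! The kernel dimension of an integer matrix of operator norm less than `3 / √2` over a torsion-free
group is an integer. -/

namespace Pool.Agent.Results.MP_95030e_al.NormBelowThreshold

open TH57.Thr TH57.Thr.Ati

theorem result (G : Type) [Group G] (htf : ∀ g : G, ∀ n : ℕ, 0 < n → g ^ n = 1 → g = 1)
    (m n : ℕ) (A : Matrix (Fin m) (Fin n) (MonoidAlgebra ℤ G))
    (c : ℝ) (hc0 : 0 < c) (hc : c ^ 2 < 9 / 2) (hA : NormLE A c) :
    ∃ d : ℤ, kerDim (toQ A) = (d : ℝ) :=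
  kerDim_small htf A c hc0 hc hA

end Pool.Agent.Results.MP_95030e_al.NormBelowThreshold
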