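import Pool.Agent.TH57.Thr.Ati3

set_option autoImplicit false

/-! Every kernel dimension of a matrix over a rational group ring is the kernel dimension of an
integer matrix whose operator norm is as close to `3 / √2` as one likes. -/

namespace Pool.Agent.Results.MP_95030e_al.NormReduction

open TH57.Thr TH57.Thr.Ati

theorem result (G : Type) [Group G] (c : ℝ) (hc : 9 / 2 < c ^ 2)
    (m n : ℕ) (A : Matrix (Fin m) (Fin n) (G →₀ ℚ)) :
    ∃ (m' n' : ℕ) (B : Matrix (Fin m') (Fin n') (MonoidAlgebra ℤ G)),
      NormLE B c ∧ kerDim (toQ B) = kerDim A :=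
  kerDim_red A c hc

end Pool.Agent.Results.MP_95030e_al.NormReduction
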