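import Pool.Agent.TH107.AT.PA
import Pool.Agent.TH107.RF.Conv
import Pool.Agent.TH107.RF.CosetZD

set_option autoImplicit false

namespace Pool.Agent.Results.MP_95030e_al.PureArtinRankTwo

/-- The Artin group of a finite Coxeter matrix; an entry `0` stands for the label infinity, that is,
for no relation. -/
abbrev ArtinGroup {n : ℕ} (M : CoxeterMatrix (Fin n)) : Type :=
  PresentedGroup
    {r : FreeGroup (Fin n) | ∃ i j : Fin n, M.M i j ≠ 0 ∧
      r = ((List.range (M.M i j)).map
              (fun k => if Even k then FreeGroup.of i else FreeGroup.of j)).prod *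
          (((List.range (M.M i j)).map
              (fun k => if Even k then FreeGroup.of j else FreeGroup.of i)).prod)⁻¹}

/-- The kernel of right multiplication by the matrix `A` over the rational group ring on row vectors
of length `m` over `l2(G)`: all square-summable `x` with `x A = 0`. -/
def kernel {G : Type} [Group G] {m n : ℕ} (A : Matrix (Fin m) (Fin n) (G →₀ ℚ)) :
    Set (lp (fun _ : Fin m × G => ℂ) 2) :=
  {x | ∀ (j : Fin n) (g : G),
    ∑ k : Fin m, ∑ h ∈ (A k j).support, x (k, g * h⁻¹) * ((A k j h : ℚ) : ℂ) = 0}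

open Classical in
/-- The von Neumann dimension of that kernel: the sum over `i` of one minus the square of the
distance from the basis vector at `(i, 1)` to the kernel, that is, the sum of the squared lengths
of the projections of these vectors to the kernel. -/
noncomputable def kerDim {G : Type} [Group G] {m n : ℕ}
    (A : Matrix (Fin m) (Fin n) (G →₀ ℚ)) : ℝ :=
  ∑ i : Fin m, (1 - Metric.infDist
    (lp.single (E := fun _ : Fin m × G => ℂ) 2 (i, (1 : G)) (1 : ℂ)) (kernel A) ^ 2)

/-- Let `M` be a Coxeter matrix such that no three distinct generators `i, j, k` have `m_ij` and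
`m_jk` finite and at least three and `m_ik` finite, and let `π` be the homomorphism from the Artin
group to the Coxeter group, whose kernel is the pure Artin group. Then the pure Artin group is
torsion-free, and for every group `G` with an injective homomorphism to the pure Artin group and
every matrix over the rational group ring of `G`, the von Neumann dimension of the kernel is an
integer. -/
theorem result : ∀ (n : ℕ) (M : CoxeterMatrix (Fin n)),
    (∀ i j k : Fin n, i ≠ k → 3 ≤ M.M i j → 3 ≤ M.M j k → M.M i k = 0) →
    ∃ π : ArtinGroup M →* M.Group, (∀ i : Fin n, π (PresentedGroup.of i) = M.simple i) ∧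
      (∀ g : π.ker, ∀ k : ℕ, 0 < k → g ^ k = 1 → g = 1) ∧
      ∀ (G : Type) [Group G] (f : G →* π.ker), Function.Injective f →
        ∀ (a b : ℕ) (A : Matrix (Fin a) (Fin b) (G →₀ ℚ)), ∃ z : ℤ, kerDim A = z := by
  intro n M hR
  have key : ∀ R : Set (FreeGroup (Fin n)), R = Pool.Agent.TH107.RF.rels M →
      ∃ π : PresentedGroup R →* M.Group, (∀ i : Fin n, π (PresentedGroup.of i) = M.simple i) ∧
        (∀ g : π.ker, ∀ k : ℕ, 0 < k → g ^ k = 1 → g = 1) ∧
        ∀ (G : Type) [Group G] (f : G →* π.ker), Function.Injective f →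
          ∀ (a b : ℕ) (A : Matrix (Fin a) (Fin b) (G →₀ ℚ)), ∃ z : ℤ, kerDim A = z := by
    rintro R rfl
    refine ⟨Pool.Agent.TH107.RF.toCox M, fun i => Pool.Agent.TH107.RF.toCox_sg M i, ?_, ?_⟩
    · intro g k hk hg
      exact Pool.Agent.TH107.AT.tf_of_li (Pool.Agent.TH107.RF.li_ker hR) g k hk hg
    · intro G _ f hf a b A
      have h1 := (Pool.Agent.TH107.AT.locGood_pure (M := M) hR).of_injective f hf
      obtain ⟨X, hX, hXA⟩ := Pool.Agent.TH107.AT.exists_itg A
      obtain ⟨z, hz⟩ := Pool.Agent.TH107.AT.integral_loc h1 X hX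
      exact ⟨z, hXA.trans hz⟩
  exact key _ (Pool.Agent.TH107.RF.rels_eq M)

end Pool.Agent.Results.MP_95030e_al.PureArtinRankTwo
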